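import Mathlib
import Pool.Agent.Results.MP_725b87_an.NotPluripolar

set_option autoImplicit false

open Set Filter Topology Metric MeasureTheory
open Pool.Agent.Results.MP_725b87_an.NotPluripolar

namespace Pool.Agent.W578.UpperTest

variable {n : ℕ}

theorem norm_circ_sub_sq (w0 y ξ : Cn n) (θ : ℝ) :
    ‖circ w0 ξ θ - y‖ ^ 2 = ‖w0 - y‖ ^ 2 +
      2 * (Real.cos θ * (inner ℂ (w0 - y) ξ).re - Real.sin θ * (inner ℂ (w0 - y) ξ).im)
      + ‖ξ‖ ^ 2 := by
  have h0 : circ w0 ξ θ - y = (w0 - y) + Complex.exp ((θ : ℂ) * Complex.I) • ξ := by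
    unfold circ; abel
  rw [h0, norm_add_sq (𝕜 := ℂ), norm_smul, Complex.norm_exp_ofReal_mul_I, one_mul,
    inner_smul_right]
  have h1 : RCLike.re (Complex.exp ((θ : ℂ) * Complex.I) * inner ℂ (w0 - y) ξ) =
      Real.cos θ * (inner ℂ (w0 - y) ξ).re - Real.sin θ * (inner ℂ (w0 - y) ξ).im := by
    rw [RCLike.re_eq_complex_re, Complex.mul_re, Complex.exp_ofReal_mul_I_re,
      Complex.exp_ofReal_mul_I_im]
  rw [h1]

theorem mean_formula (c a b e : ℝ) :
    (2 * Real.pi)⁻¹ * ∫ θ in (0 : ℝ)..(2 * Real.pi),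
      (c + (a * Real.cos θ + (b * Real.sin θ + e * Real.cos θ ^ 2))) = c + e / 2 := by
  rw [intervalIntegral.integral_add (by simp) (by
    apply Continuous.intervalIntegrable; fun_prop),
    intervalIntegral.integral_add (by apply Continuous.intervalIntegrable; fun_prop)
      (by apply Continuous.intervalIntegrable; fun_prop),
    intervalIntegral.integral_add (by apply Continuous.intervalIntegrable; fun_prop)
      (by apply Continuous.intervalIntegrable; fun_prop)]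
  rw [intervalIntegral.integral_const, intervalIntegral.integral_const_mul,
    intervalIntegral.integral_const_mul, intervalIntegral.integral_const_mul, integral_cos,
    integral_sin, integral_cos_sq]
  have : Real.pi ≠ 0 := Real.pi_ne_zero
  simp
  field_simp

theorem inner_re_bound (w0 w1 y0 y1 : Cn n) :
    ‖w1 - y0‖ ^ 2 - ‖w0 - y0‖ ^ 2 + ‖w0 - y1‖ ^ 2 - ‖w1 - y1‖ ^ 2 ≤
      2 * (‖w0 - w1‖ * ‖y0 - y1‖) := by
  have e1 : ∀ a b : Cn n, ‖a - b‖ ^ 2 = ‖a‖ ^ 2 - 2 * (inner ℂ a b).re + ‖b‖ ^ 2 := by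
    intro a b
    rw [norm_sub_sq (𝕜 := ℂ)]; rfl
  rw [e1, e1, e1, e1]
  have h2 : (inner ℂ (w0 - w1) (y0 - y1)).re ≤ ‖w0 - w1‖ * ‖y0 - y1‖ :=
    (Complex.re_le_norm _).trans (norm_inner_le_norm _ _)
  rw [inner_sub_left, inner_sub_right, inner_sub_right] at h2
  simp only [Complex.sub_re] at h2
  linarith

/-- Key estimate at two contact points. -/
theorem contact_ineq {Ω : Set (Cn n)} {φ : Cn n → EReal} (hφ : IsPSH Ω φ) {B : Set (Cn n)}
    (hB : B ⊆ Ω) {K : ℝ} (hK : 0 < K) {y0 y1 w0 w1 : Cn n} {c0 c1 : ℝ}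
    (hc0 : φ w0 = (c0 : EReal)) (hc1 : φ w1 = (c1 : EReal)) (hw1 : w1 ∈ B)
    (h0 : ∀ x ∈ B, φ x ≤ ((c0 + K / 2 * (‖x - y0‖ ^ 2 - ‖w0 - y0‖ ^ 2) : ℝ) : EReal))
    (h1 : ∀ x ∈ B, φ x ≤ ((c1 + K / 2 * (‖x - y1‖ ^ 2 - ‖w1 - y1‖ ^ 2) : ℝ) : EReal))
    {ρ : ℝ} (hρ : 0 ≤ ρ) (hball : closedBall w0 ρ ⊆ B) :
    ‖y0 - y1‖ * (ρ - 2 * ‖w0 - w1‖) ≤ 2 * ρ ^ 2 := by
  by_cases hd0 : y0 - y1 = 0
  · rw [hd0, norm_zero, zero_mul]; positivity
  set d : ℝ := ‖y0 - y1‖ with hd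
  have hdpos : 0 < d := norm_pos_iff.2 hd0
  set δ : ℝ := ‖w0 - w1‖ with hδ
  set ξ : Cn n := ((-(ρ / d) : ℝ) : ℂ) • (y0 - y1) with hξ
  have hξn : ‖ξ‖ = ρ := by
    rw [hξ, norm_smul, Complex.norm_real, Real.norm_eq_abs, abs_neg, abs_of_nonneg (by positivity),
      ← hd]
    field_simp
  have hinξ : inner ℂ (y0 - y1) ξ = ((-(ρ * d) : ℝ) : ℂ) := by
    rw [hξ, inner_smul_right, inner_self_eq_norm_sq_to_K, ← hd]
    push_cast
    have : (d : ℂ) ≠ 0 := by exact_mod_cast hdpos.ne'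
    simp only [Complex.coe_algebraMap]
    field_simp
  set α : ℝ := (inner ℂ (w0 - y0) ξ).re with hα
  set β : ℝ := (inner ℂ (w0 - y0) ξ).im with hβ
  have hw0y1 : w0 - y1 = (w0 - y0) + (y0 - y1) := by abel
  have hα1 : (inner ℂ (w0 - y1) ξ).re = α - ρ * d := by
    rw [hw0y1, inner_add_left, Complex.add_re, hinξ, Complex.ofReal_re]; ring
  have hβ1 : (inner ℂ (w0 - y1) ξ).im = β := by
    rw [hw0y1, inner_add_left, Complex.add_im, hinξ, Complex.ofReal_im]; ring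
  set A0 : ℝ := c0 - c1 - K / 2 * (‖w0 - y1‖ ^ 2 - ‖w1 - y1‖ ^ 2) with hA0
  have hA0le : -(K * (δ * d)) ≤ A0 := by
    have h2 := h0 w1 hw1
    rw [hc1, EReal.coe_le_coe_iff] at h2
    have h3 := inner_re_bound w0 w1 y0 y1
    rw [← hd, ← hδ] at h3
    rw [hA0]
    nlinarith
  have hmem : ∀ ζ : ℂ, ‖ζ‖ ≤ 1 → w0 + ζ • ξ ∈ B := by
    intro ζ hζ
    apply hball
    rw [mem_closedBall, dist_eq_norm, add_sub_cancel_left, norm_smul, hξn]
    calc ‖ζ‖ * ρ ≤ 1 * ρ := by gcongr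
      _ = ρ := one_mul _
  have hcirc : ∀ θ : ℝ, circ w0 ξ θ ∈ B := by
    intro θ
    apply hmem
    rw [Complex.norm_exp_ofReal_mul_I]
  have hkey := hφ.2.2 w0 ξ (fun ζ hζ => hB (hmem ζ hζ))
    (fun θ => (c0 + K * ρ ^ 2 / 2 - A0 / 2) + ((K * α - A0 / 2 - K * ρ * d / 2) * Real.cos θ +
      ((-(K * β)) * Real.sin θ + (-(K * ρ * d / 2)) * Real.cos θ ^ 2)))
    (by fun_prop) (by
      intro θ _
      have hU0 := h0 _ (hcirc θ)
      have hU1 := h1 _ (hcirc θ)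
      rw [norm_circ_sub_sq, hξn, ← hα, ← hβ] at hU0
      rw [norm_circ_sub_sq, hξn, hα1, hβ1] at hU1
      set U0 : ℝ := c0 + K / 2 * (‖w0 - y0‖ ^ 2 + 2 * (Real.cos θ * α - Real.sin θ * β) + ρ ^ 2
        - ‖w0 - y0‖ ^ 2) with hU0d
      set U1 : ℝ := c1 + K / 2 * (‖w0 - y1‖ ^ 2 + 2 * (Real.cos θ * (α - ρ * d)
        - Real.sin θ * β) + ρ ^ 2 - ‖w1 - y1‖ ^ 2) with hU1d
      have hdiff : U0 - U1 = A0 + K * ρ * d * Real.cos θ := by
        rw [hU0d, hU1d, hA0]; ring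
      have hrw : (c0 + K * ρ ^ 2 / 2 - A0 / 2) + ((K * α - A0 / 2 - K * ρ * d / 2) * Real.cos θ +
          ((-(K * β)) * Real.sin θ + (-(K * ρ * d / 2)) * Real.cos θ ^ 2)) =
          U0 - (1 + Real.cos θ) / 2 * (U0 - U1) := by
        rw [hdiff, hU0d]; ring
      have hc1' : Real.cos θ ≤ 1 := Real.cos_le_one θ
      have hc2' : -1 ≤ Real.cos θ := Real.neg_one_le_cos θ
      show φ (circ w0 ξ θ) ≤ (((c0 + K * ρ ^ 2 / 2 - A0 / 2) +
        ((K * α - A0 / 2 - K * ρ * d / 2) * Real.cos θ +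
          ((-(K * β)) * Real.sin θ + (-(K * ρ * d / 2)) * Real.cos θ ^ 2)) : ℝ) : EReal)
      rw [hrw]
      rcases le_total U0 U1 with h | h
      · refine hU0.trans ?_
        rw [EReal.coe_le_coe_iff]
        nlinarith
      · refine hU1.trans ?_
        rw [EReal.coe_le_coe_iff]
        nlinarith)
  rw [mean_formula, hc0, EReal.coe_le_coe_iff] at hkey
  have h5 : K * (d * (ρ - 2 * δ)) ≤ K * (2 * ρ ^ 2) := by nlinarith
  exact le_of_mul_le_mul_left h5 hK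

/-- `w` is a point of `B` where `φ - (K/2)|· - y|^2` attains its maximum over `B`. -/
def Contact (B : Set (Cn n)) (φ : Cn n → EReal) (K : ℝ) (y w : Cn n) : Prop :=
  w ∈ B ∧ ∀ x ∈ B, φ x + ((K / 2 * (‖w - y‖ ^ 2 - ‖x - y‖ ^ 2) : ℝ) : EReal) ≤ φ w

theorem Contact.upper {B : Set (Cn n)} {φ : Cn n → EReal} {K : ℝ} {y w : Cn n}
    (h : Contact B φ K y w) {c : ℝ} (hc : φ w = (c : EReal)) :
    ∀ x ∈ B, φ x ≤ ((c + K / 2 * (‖x - y‖ ^ 2 - ‖w - y‖ ^ 2) : ℝ) : EReal) := by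
  intro x hx
  have h1 := h.2 x hx
  rw [hc] at h1
  have h2 : φ x ≤ (c : EReal) - ((K / 2 * (‖w - y‖ ^ 2 - ‖x - y‖ ^ 2) : ℝ) : EReal) :=
    (EReal.le_sub_iff_add_le (Or.inl (EReal.coe_ne_bot _)) (Or.inl (EReal.coe_ne_top _))).2 h1
  rw [← EReal.coe_sub] at h2
  refine h2.trans (le_of_eq ?_)
  congr 1
  ring

theorem exists_contact {Ω : Set (Cn n)} {φ : Cn n → EReal} (hφ : IsPSH Ω φ) {z0 : Cn n} {R : ℝ}
    (hR : 0 ≤ R) (hB : closedBall z0 R ⊆ Ω) (K : ℝ) (y : Cn n) :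
    ∃ w, Contact (closedBall z0 R) φ K y w := by
  obtain ⟨htop, husc, -⟩ := hφ
  have hFusc : UpperSemicontinuousOn
      (fun x => φ x + ((-(K / 2 * ‖x - y‖ ^ 2) : ℝ) : EReal)) (closedBall z0 R) := by
    apply UpperSemicontinuousOn.add' (husc.mono hB)
    · have : Continuous (fun x : Cn n => ((-(K / 2 * ‖x - y‖ ^ 2) : ℝ) : EReal)) :=
        continuous_coe_real_ereal.comp (by fun_prop)
      exact this.upperSemicontinuous.upperSemicontinuousOn _
    · intro z _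
      apply EReal.continuousAt_add
      · right; exact EReal.coe_ne_bot _
      · right; exact EReal.coe_ne_top _
  obtain ⟨w, hw, hmax⟩ := hFusc.exists_isMaxOn ⟨z0, mem_closedBall_self hR⟩
    (isCompact_closedBall z0 R)
  refine ⟨w, hw, fun x hx => ?_⟩
  have h1 : φ x + ((-(K / 2 * ‖x - y‖ ^ 2) : ℝ) : EReal) ≤
    φ w + ((-(K / 2 * ‖w - y‖ ^ 2) : ℝ) : EReal) := hmax hx
  have h2 : φ x + ((-(K / 2 * ‖x - y‖ ^ 2) : ℝ) : EReal) + ((K / 2 * ‖w - y‖ ^ 2 : ℝ) : EReal) ≤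
    φ w + ((-(K / 2 * ‖w - y‖ ^ 2) : ℝ) : EReal) + ((K / 2 * ‖w - y‖ ^ 2 : ℝ) : EReal) :=
    add_le_add_left h1 _
  rw [add_assoc, add_assoc, ← EReal.coe_add, ← EReal.coe_add] at h2
  have e1 : -(K / 2 * ‖x - y‖ ^ 2) + K / 2 * ‖w - y‖ ^ 2 =
    K / 2 * (‖w - y‖ ^ 2 - ‖x - y‖ ^ 2) := by ring
  have e2 : -(K / 2 * ‖w - y‖ ^ 2) + K / 2 * ‖w - y‖ ^ 2 = 0 := by ring
  rw [e1, e2, EReal.coe_zero, add_zero] at h2
  exact h2

/-- Interior contact points with finite value have an upper test function. -/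
theorem Contact.hasUpperTest {Ω : Set (Cn n)} {φ : Cn n → EReal} {z0 : Cn n} {R : ℝ}
    (hB : closedBall z0 R ⊆ Ω) {K : ℝ} {y w : Cn n}
    (h : Contact (closedBall z0 R) φ K y w) (hw : w ∈ ball z0 R) {c : ℝ}
    (hc : φ w = (c : EReal)) : HasUpperTest Ω φ w := by
  refine ⟨ball z0 R, fun x => K / 2 * ‖x - y‖ ^ 2, isOpen_ball, ball_subset_closedBall.trans hB,
    hw, ?_, ?_⟩
  · apply ContDiff.contDiffOn
    exact contDiff_const.mul ((contDiff_id.sub contDiff_const).norm_sq ℂ)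
  · intro x hx
    have h1 := h.upper hc x (ball_subset_closedBall hx)
    rw [hc, ← EReal.coe_sub]
    have h2 : φ x - ((K / 2 * ‖x - y‖ ^ 2 : ℝ) : EReal) ≤
      ((c + K / 2 * (‖x - y‖ ^ 2 - ‖w - y‖ ^ 2) : ℝ) : EReal) - ((K / 2 * ‖x - y‖ ^ 2 : ℝ) : EReal) :=
      EReal.sub_le_sub h1 le_rfl
    rw [← EReal.coe_sub] at h2
    refine h2.trans (le_of_eq ?_)
    congr 1
    ring

/-- The set of contact points of opening `K` with vertex in `closedBall z0 r`. -/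
def contactSet (φ : Cn n → EReal) (z0 : Cn n) (R r K : ℝ) : Set (Cn n) :=
  {w | ∃ y ∈ closedBall z0 r, Contact (closedBall z0 R) φ K y w}

theorem isCompact_contactSet {Ω : Set (Cn n)} {φ : Cn n → EReal} (hφ : IsPSH Ω φ) {z0 : Cn n}
    {R r K : ℝ} (hB : closedBall z0 R ⊆ Ω) : IsCompact (contactSet φ z0 R r K) := by
  obtain ⟨htop, husc, -⟩ := hφ
  set S : Set (Cn n × Cn n) := {p | p.1 ∈ closedBall z0 R ∧ p.2 ∈ closedBall z0 r ∧
    ∀ x ∈ closedBall z0 R,
      φ x + ((K / 2 * (‖p.1 - p.2‖ ^ 2 - ‖x - p.2‖ ^ 2) : ℝ) : EReal) ≤ φ p.1} with hS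
  have hScl : IsClosed S := by
    rw [isClosed_iff_frequently]
    intro p hp
    have h1 : p.1 ∈ closedBall z0 R := by
      have hcl : IsClosed {q : Cn n × Cn n | q.1 ∈ closedBall z0 R} :=
        isClosed_closedBall.preimage continuous_fst
      exact isClosed_iff_frequently.1 hcl p (hp.mono fun q hq => hq.1)
    have h2 : p.2 ∈ closedBall z0 r := by
      have hcl : IsClosed {q : Cn n × Cn n | q.2 ∈ closedBall z0 r} :=
        isClosed_closedBall.preimage continuous_snd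
      exact isClosed_iff_frequently.1 hcl p (hp.mono fun q hq => hq.2.1)
    refine ⟨h1, h2, fun x hx => ?_⟩
    by_cases hbot : φ x = ⊥
    · rw [hbot, EReal.bot_add]; exact bot_le
    have hcx : φ x = ((φ x).toReal : EReal) := (EReal.coe_toReal (htop x (hB hx)) hbot).symm
    set c := (φ x).toReal with hc
    rw [hcx, ← EReal.coe_add]
    by_contra hlt
    rw [not_le] at hlt
    obtain ⟨t, ht1, ht2⟩ := EReal.lt_iff_exists_real_btwn.1 hlt
    rw [EReal.coe_lt_coe_iff] at ht2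
    have husc' : ∀ᶠ w' in 𝓝[closedBall z0 R] p.1, φ w' < (t : EReal) :=
      (husc.mono hB) p.1 h1 t ht1
    rw [eventually_nhdsWithin_iff] at husc'
    have hev1 : ∀ᶠ q : Cn n × Cn n in 𝓝 p, q.1 ∈ closedBall z0 R → φ q.1 < (t : EReal) :=
      (continuous_fst.tendsto p).eventually husc'
    have hev2 : ∀ᶠ q : Cn n × Cn n in 𝓝 p,
        t < c + K / 2 * (‖q.1 - q.2‖ ^ 2 - ‖x - q.2‖ ^ 2) := by
      have hcont : Continuous fun q : Cn n × Cn n =>
          c + K / 2 * (‖q.1 - q.2‖ ^ 2 - ‖x - q.2‖ ^ 2) := by fun_prop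
      exact (hcont.tendsto p).eventually (lt_mem_nhds ht2)
    obtain ⟨q, hq, hq1, hq2⟩ := (hp.and_eventually (hev1.and hev2)).exists
    have h3 := hq.2.2 x hx
    rw [hcx, ← EReal.coe_add] at h3
    have h4 := hq1 hq.1
    have h5 : ((c + K / 2 * (‖q.1 - q.2‖ ^ 2 - ‖x - q.2‖ ^ 2) : ℝ) : EReal) < (t : EReal) :=
      lt_of_le_of_lt h3 h4
    rw [EReal.coe_lt_coe_iff] at h5
    exact lt_asymm h5 hq2
  have hScomp : IsCompact S := by
    apply IsCompact.of_isClosed_subset ((isCompact_closedBall z0 R).prod (isCompact_closedBall z0 r))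
      hScl
    intro p hp
    exact ⟨hp.1, hp.2.1⟩
  have : contactSet φ z0 R r K = Prod.fst '' S := by
    ext w
    constructor
    · rintro ⟨y, hy, hw, h⟩
      exact ⟨(w, y), ⟨hw, hy, h⟩, rfl⟩
    · rintro ⟨⟨w', y⟩, ⟨hw, hy, h⟩, rfl⟩
      exact ⟨y, hy, hw, h⟩
  rw [this]
  exact hScomp.image continuous_fst

theorem exists_upper_bound {Ω : Set (Cn n)} {φ : Cn n → EReal} (hφ : IsPSH Ω φ) {z0 : Cn n}
    {R : ℝ} (hR : 0 ≤ R) (hB : closedBall z0 R ⊆ Ω) :
    ∃ M : ℝ, ∀ x ∈ closedBall z0 R, φ x ≤ (M : EReal) := by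
  obtain ⟨w, hw⟩ := exists_contact hφ hR hB 0 z0
  refine ⟨(φ w).toReal, fun x hx => ?_⟩
  have h1 := hw.2 x hx
  simp only [zero_div, zero_mul, EReal.coe_zero, add_zero] at h1
  exact h1.trans (EReal.le_coe_toReal (hφ.1 w (hB hw.1)))

/-- Location of the contact points. -/
theorem contact_location {Ω : Set (Cn n)} {φ : Cn n → EReal} (hφ : IsPSH Ω φ) {z0 : Cn n}
    {R r : ℝ} (hr : 0 < r) (hB : closedBall z0 R ⊆ Ω) {M m K : ℝ} (hK : 0 < K)
    (hM : ∀ x ∈ closedBall z0 R, φ x ≤ (M : EReal)) {a : Cn n} (ha : a ∈ closedBall z0 r)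
    (haR : a ∈ closedBall z0 R) (hm : φ a = (m : EReal)) (hKr : 2 * (M - m) ≤ K * r ^ 2)
    {y w : Cn n} (hy : y ∈ closedBall z0 r) (h : Contact (closedBall z0 R) φ K y w) :
    w ∈ closedBall z0 (4 * r) ∧ ∃ c : ℝ, φ w = (c : EReal) := by
  have h1 := h.2 a haR
  rw [hm, ← EReal.coe_add] at h1
  have hne : φ w ≠ ⊥ := by
    intro hb
    rw [hb, le_bot_iff] at h1
    exact EReal.coe_ne_bot _ h1
  have h2 := h1.trans (hM w h.1)
  rw [EReal.coe_le_coe_iff] at h2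
  have h3 : ‖a - y‖ ≤ 2 * r := by
    rw [← dist_eq_norm]
    calc dist a y ≤ dist a z0 + dist z0 y := dist_triangle _ _ _
      _ ≤ r + r := by
        rw [dist_comm z0 y]; exact add_le_add ha hy
      _ = 2 * r := by ring
  have h4 : ‖a - y‖ ^ 2 ≤ (2 * r) ^ 2 := by gcongr
  have h5 : K * ‖w - y‖ ^ 2 ≤ K * (9 * r ^ 2) := by nlinarith [sq_nonneg r]
  have h6 : ‖w - y‖ ^ 2 ≤ (3 * r) ^ 2 := by
    have := le_of_mul_le_mul_left h5 hK
    linarith
  have h7 : ‖w - y‖ ≤ 3 * r := by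
    exact abs_le_of_sq_le_sq' h6 (by positivity) |>.2
  refine ⟨?_, (φ w).toReal, (EReal.coe_toReal (hφ.1 w (hB h.1)) hne).symm⟩
  rw [mem_closedBall]
  calc dist w z0 ≤ dist w y + dist y z0 := dist_triangle _ _ _
    _ ≤ 3 * r + r := by rw [dist_eq_norm w y]; exact add_le_add h7 hy
    _ = 4 * r := by ring

/-- The map contact point to vertex is Lipschitz with constant 18. -/
theorem contact_dist {Ω : Set (Cn n)} {φ : Cn n → EReal} (hφ : IsPSH Ω φ) {z0 : Cn n}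
    {r : ℝ} (hr : 0 < r) (hB : closedBall z0 (30 * r) ⊆ Ω) {M m K : ℝ} (hK : 0 < K)
    (hM : ∀ x ∈ closedBall z0 (30 * r), φ x ≤ (M : EReal)) {a : Cn n} (ha : a ∈ closedBall z0 r)
    (hm : φ a = (m : EReal)) (hKr : 2 * (M - m) ≤ K * r ^ 2)
    {y0 y1 w0 w1 : Cn n} (hy0 : y0 ∈ closedBall z0 r) (hy1 : y1 ∈ closedBall z0 r)
    (h0 : Contact (closedBall z0 (30 * r)) φ K y0 w0)
    (h1 : Contact (closedBall z0 (30 * r)) φ K y1 w1) :
    dist y0 y1 ≤ 18 * dist w0 w1 := by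
  have haR : a ∈ closedBall z0 (30 * r) := closedBall_subset_closedBall (by linarith) ha
  obtain ⟨hl0, c0, hc0⟩ := contact_location hφ hr hB hK hM ha haR hm hKr hy0 h0
  obtain ⟨hl1, c1, hc1⟩ := contact_location hφ hr hB hK hM ha haR hm hKr hy1 h1
  rw [dist_eq_norm y0, dist_eq_norm w0]
  have hδ : ‖w0 - w1‖ ≤ 8 * r := by
    rw [← dist_eq_norm]
    calc dist w0 w1 ≤ dist w0 z0 + dist z0 w1 := dist_triangle _ _ _
      _ ≤ 4 * r + 4 * r := by rw [dist_comm z0 w1]; exact add_le_add hl0 hl1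
      _ = 8 * r := by ring
  apply le_of_forall_pos_le_add
  intro η hη
  set ε : ℝ := min (2 * r) (η / 18) with hε
  have hεpos : 0 < ε := lt_min (by positivity) (by positivity)
  have hε1 : ε ≤ 2 * r := min_le_left _ _
  have hε2 : ε ≤ η / 18 := min_le_right _ _
  set δ := ‖w0 - w1‖ with hδd
  have hδ0 : 0 ≤ δ := norm_nonneg _
  have hkey := contact_ineq hφ hB hK hc0 hc1 h1.1 (h0.upper hc0) (h1.upper hc1)
    (ρ := 3 * δ + ε) (by positivity) (by
      intro x hx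
      rw [mem_closedBall] at hx ⊢
      calc dist x z0 ≤ dist x w0 + dist w0 z0 := dist_triangle _ _ _
        _ ≤ (3 * δ + ε) + 4 * r := add_le_add hx hl0
        _ ≤ 30 * r := by linarith)
  rw [← hδd] at hkey
  have h2 : ‖y0 - y1‖ * (δ + ε) ≤ (18 * (δ + ε)) * (δ + ε) := by nlinarith
  have h3 : ‖y0 - y1‖ ≤ 18 * (δ + ε) := le_of_mul_le_mul_right h2 (by positivity)
  linarith

open Module in
/-- Contact sets have a fixed positive proportion. -/
theorem contactSet_measure {Ω : Set (Cn n)} {φ : Cn n → EReal} (hφ : IsPSH Ω φ) {z0 : Cn n}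
    {r : ℝ} (hr : 0 < r) (hB : closedBall z0 (30 * r) ⊆ Ω) {M m K : ℝ} (hK : 0 < K)
    (hM : ∀ x ∈ closedBall z0 (30 * r), φ x ≤ (M : EReal)) {a : Cn n} (ha : a ∈ closedBall z0 r)
    (hm : φ a = (m : EReal)) (hKr : 2 * (M - m) ≤ K * r ^ 2) :
    (μH[finrank ℝ (Cn n)] : Measure (Cn n)) (closedBall z0 r) ≤
      (18 : ENNReal) ^ (finrank ℝ (Cn n)) *
        (μH[finrank ℝ (Cn n)] : Measure (Cn n)) (contactSet φ z0 (30 * r) r K) := by
  classical
  set W := contactSet φ z0 (30 * r) r K with hW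
  set g : Cn n → Cn n := fun w => if h : ∃ y ∈ closedBall z0 r,
    Contact (closedBall z0 (30 * r)) φ K y w then h.choose else z0 with hg
  have hgspec : ∀ w ∈ W, g w ∈ closedBall z0 r ∧ Contact (closedBall z0 (30 * r)) φ K (g w) w := by
    intro w hw
    have h : ∃ y ∈ closedBall z0 r, Contact (closedBall z0 (30 * r)) φ K y w := hw
    simp only [hg, dif_pos h]
    exact h.choose_spec
  have hLip : LipschitzOnWith 18 g W := by
    apply LipschitzOnWith.of_dist_le_mul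
    intro x hx y hy
    exact contact_dist hφ hr hB hK hM ha hm hKr (hgspec x hx).1 (hgspec y hy).1 (hgspec x hx).2
      (hgspec y hy).2
  have hsub : closedBall z0 r ⊆ g '' W := by
    intro y hy
    obtain ⟨w, hw⟩ := exists_contact hφ (by positivity) hB K y
    have hwW : w ∈ W := ⟨y, hy, hw⟩
    refine ⟨w, hwW, ?_⟩
    have h1 := contact_dist hφ hr hB hK hM ha hm hKr (hgspec w hwW).1 hy (hgspec w hwW).2 hw
    rw [dist_self, mul_zero] at h1
    exact dist_le_zero.1 h1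
  calc (μH[finrank ℝ (Cn n)] : Measure (Cn n)) (closedBall z0 r)
      ≤ (μH[finrank ℝ (Cn n)] : Measure (Cn n)) (g '' W) := measure_mono hsub
    _ ≤ _ := by
      have := hLip.hausdorffMeasure_image_le (d := finrank ℝ (Cn n)) (by positivity)
      simpa using this

open Module in
theorem exceptional_null_aux {Ω : Set (Cn n)} (hΩ : IsOpen Ω) (hconn : IsPreconnected Ω)
    {φ : Cn n → EReal} (hφ : IsPSH Ω φ) (hne : ∃ z ∈ Ω, φ z ≠ ⊥) :
    (μH[finrank ℝ (Cn n)] : Measure (Cn n)) (exceptional Ω φ) = 0 := by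
  set μ : Measure (Cn n) := μH[finrank ℝ (Cn n)] with hμ
  set E := exceptional Ω φ with hE
  set d := finrank ℝ (Cn n) with hd
  by_contra hpos
  have hae := Besicovitch.ae_tendsto_measure_inter_div μ E
  rw [ae_iff] at hae
  obtain ⟨t, hts, htm, ht0⟩ := exists_measurable_superset_of_null hae
  rw [Measure.restrict_apply htm] at ht0
  obtain ⟨z0, hz0E, hz0t⟩ : ∃ z0 ∈ E, z0 ∉ t := by
    by_contra hcon
    push Not at hcon
    apply hpos
    have : t ∩ E = E := inter_eq_right.2 hcon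
    rwa [this] at ht0
  have hlim : Tendsto (fun r => μ (E ∩ closedBall z0 r) / μ (closedBall z0 r)) (𝓝[>] 0) (𝓝 1) := by
    by_contra h
    exact hz0t (hts h)
  have hz0Ω : z0 ∈ Ω := hz0E.1
  obtain ⟨R0, hR0, hR0Ω⟩ := Metric.isOpen_iff.1 hΩ z0 hz0Ω
  -- the constant
  set κ : ENNReal := ((540 : ENNReal) ^ d)⁻¹ with hκ
  have hκpos : κ ≠ 0 := ENNReal.inv_ne_zero.2 (ENNReal.pow_ne_top (by norm_num))
  have hbound : ∀ᶠ ρ in 𝓝[>] (0 : ℝ), μ (E ∩ closedBall z0 ρ) / μ (closedBall z0 ρ) ≤ 1 - κ := by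
    have hev : ∀ᶠ ρ in 𝓝[>] (0 : ℝ), ρ ∈ Ioo 0 R0 := Ioo_mem_nhdsGT hR0
    filter_upwards [hev] with ρ hρ
    set r : ℝ := ρ / 30 with hr
    have hrpos : 0 < r := by have := hρ.1; positivity
    have hρr : ρ = 30 * r := by rw [hr]; ring
    have hB : closedBall z0 (30 * r) ⊆ Ω := by
      rw [← hρr]
      exact (closedBall_subset_ball hρ.2).trans hR0Ω
    obtain ⟨M, hM⟩ := exists_upper_bound hφ (by positivity) hB
    obtain ⟨a, ha, hab⟩ : ∃ a ∈ ball z0 r, φ a ≠ ⊥ := by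
      by_contra hcon
      push Not at hcon
      obtain ⟨z, hz, hzb⟩ := hne
      refine hzb (eq_bot_propagate Ω hΩ hconn φ hφ z0 r hrpos ?_ hcon z hz)
      exact ((ball_subset_closedBall).trans (closedBall_subset_closedBall (by linarith))).trans hB
    have haΩ : a ∈ Ω :=
      hB (closedBall_subset_closedBall (by linarith) (ball_subset_closedBall ha))
    have hma : φ a = ((φ a).toReal : EReal) := (EReal.coe_toReal (hφ.1 a haΩ) hab).symm
    set m := (φ a).toReal with hm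
    set K : ℝ := 2 * |M - m| / r ^ 2 + 1 with hK
    have hKpos : 0 < K := by positivity
    have hKr : 2 * (M - m) ≤ K * r ^ 2 := by
      have h1 : K * r ^ 2 = 2 * |M - m| + r ^ 2 := by
        rw [hK]; field_simp
      rw [h1]
      nlinarith [le_abs_self (M - m), sq_nonneg r]
    have haC : a ∈ closedBall z0 r := ball_subset_closedBall ha
    have haR : a ∈ closedBall z0 (30 * r) := closedBall_subset_closedBall (by linarith) haC
    have hmeas := contactSet_measure hφ hrpos hB hKpos hM haC hma hKr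
    have hcomp : IsCompact (contactSet φ z0 (30 * r) r K) := isCompact_contactSet hφ hB
    set W := contactSet φ z0 (30 * r) r K with hW
    rw [← hμ, ← hd] at hmeas
    have hWB : W ⊆ closedBall z0 (30 * r) := fun w hw => by
      obtain ⟨y, _, hy⟩ := hw
      exact hy.1
    have hWE : Disjoint W E := by
      rw [Set.disjoint_left]
      rintro w ⟨y, hy, hc⟩ ⟨-, hwE⟩
      obtain ⟨hl, c, hcw⟩ := contact_location hφ hrpos hB hKpos hM haC haR hma hKr hy hc
      apply hwE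
      refine hc.hasUpperTest hB ?_ hcw
      rw [mem_ball]
      have : dist w z0 ≤ 4 * r := hl
      linarith
    have hBfin : μ (closedBall z0 (30 * r)) ≠ ⊤ := (isCompact_closedBall _ _).measure_lt_top.ne
    have hB0 : μ (closedBall z0 (30 * r)) ≠ 0 :=
      (measure_closedBall_pos μ z0 (by positivity)).ne'
    have hWm : MeasurableSet W := hcomp.measurableSet
    have hsplit : μ (E ∩ closedBall z0 (30 * r)) + μ W ≤ μ (closedBall z0 (30 * r)) := by
      rw [← measure_union _ hWm]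
      · exact measure_mono (union_subset inter_subset_right hWB)
      · exact (hWE.symm).mono_left inter_subset_left
    have hscale : μ (closedBall z0 (30 * r)) = (30 : ENNReal) ^ d * μ (closedBall z0 r) := by
      rw [Measure.addHaar_closedBall μ z0 (by positivity : (0 : ℝ) ≤ 30 * r),
        Measure.addHaar_closedBall μ z0 hrpos.le, ← mul_assoc, mul_pow,
        ENNReal.ofReal_mul (by positivity)]
      congr 2
      rw [ENNReal.ofReal_pow (by norm_num)]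
      norm_num [hd]
    have hlow : κ * μ (closedBall z0 (30 * r)) ≤ μ W := by
      rw [hscale, hκ]
      have h540 : (540 : ENNReal) = 18 * 30 := by norm_num
      rw [ENNReal.inv_mul_le_iff (by positivity) (ENNReal.pow_ne_top (by norm_num)), h540, mul_pow,
        mul_assoc]
      calc (30 : ENNReal) ^ d * μ (closedBall z0 r) ≤ (30 : ENNReal) ^ d * (18 ^ d * μ W) := by
            gcongr
        _ = 18 ^ d * (30 ^ d * μ W) := by ring
    rw [hρr]
    rw [ENNReal.div_le_iff hB0 hBfin]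
    have hWfin : μ W ≠ ⊤ := hcomp.measure_lt_top.ne
    calc μ (E ∩ closedBall z0 (30 * r)) ≤ μ (closedBall z0 (30 * r)) - μ W :=
          ENNReal.le_sub_of_add_le_right hWfin hsplit
      _ ≤ μ (closedBall z0 (30 * r)) - κ * μ (closedBall z0 (30 * r)) := tsub_le_tsub_left hlow _
      _ = (1 - κ) * μ (closedBall z0 (30 * r)) := by
          rw [ENNReal.sub_mul (fun _ _ => hBfin), one_mul]
  have hle : (1 : ENNReal) ≤ 1 - κ := le_of_tendsto hlim hbound
  have hlt : (1 : ENNReal) - κ < 1 := ENNReal.sub_lt_self ENNReal.one_ne_top one_ne_zero hκpos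
  exact absurd hle (not_le.2 hlt)

/-- The exceptional set is null for every Haar (Lebesgue) measure on `ℂⁿ`. -/
theorem exceptional_null {Ω : Set (Cn n)} (hΩ : IsOpen Ω) (hconn : IsPreconnected Ω)
    {φ : Cn n → EReal} (hφ : IsPSH Ω φ) (hne : ∃ z ∈ Ω, φ z ≠ ⊥)
    (μ : Measure (Cn n)) [μ.IsAddHaarMeasure] : μ (exceptional Ω φ) = 0 :=
  Measure.absolutelyContinuous_isAddHaarMeasure μ
    (μH[Module.finrank ℝ (Cn n)] : Measure (Cn n)) (exceptional_null_aux hΩ hconn hφ hne)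

end Pool.Agent.W578.UpperTest
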