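import Pool.Agent.W192.PP.Defs
import Pool.Agent.H382P.FFhor
import Pool.Agent.H382R2.Sign

/-! PP-HOR: good heights for `f = Λ(s-h)/Λ(s+h)`. -/

open Complex Filter Topology Set MeasureTheory

namespace Pool.Agent.W578.PPHor

open Pool.Agent.W192.PP
open SG (phi hh dl)

/-- `1/ζ` is bounded for `re s ≥ 3/2` -/
theorem zeta_inv_right : ∃ B : ℝ, 1 ≤ B ∧ ∀ s : ℂ, 3 / 2 ≤ s.re →
    riemannZeta s ≠ 0 ∧ ‖(riemannZeta s)⁻¹‖ ≤ B := by
  have hsum : Summable (fun n : ℕ => 1 / (n : ℝ) ^ (3 / 2 : ℝ)) :=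
    Real.summable_one_div_nat_rpow.2 (by norm_num)
  refine ⟨max 1 (∑' n : ℕ, 1 / (n : ℝ) ^ (3 / 2 : ℝ)), le_max_left _ _, fun s hs => ?_⟩
  have hs1 : 1 < s.re := by linarith
  have h0 : riemannZeta s ≠ 0 := riemannZeta_ne_zero_of_one_lt_re hs1
  refine ⟨h0, ?_⟩
  have h1 := ArithmeticFunction.LSeries_zeta_mul_Lseries_moebius hs1
  rw [ArithmeticFunction.LSeries_zeta_eq_riemannZeta hs1] at h1
  have h2 := inv_eq_of_mul_eq_one_right h1
  rw [h2]
  have hterm : ∀ n : ℕ, ‖LSeries.term (fun n => ((ArithmeticFunction.moebius n : ℤ) : ℂ)) s n‖ ≤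
      1 / (n : ℝ) ^ (3 / 2 : ℝ) := by
    intro n
    rw [LSeries.norm_term_eq]
    split_ifs with hn
    · positivity
    · have hn1 : (1 : ℝ) ≤ n := by exact_mod_cast Nat.one_le_iff_ne_zero.2 hn
      have hmu : ‖((ArithmeticFunction.moebius n : ℤ) : ℂ)‖ ≤ 1 := by
        rw [Complex.norm_intCast]
        exact_mod_cast ArithmeticFunction.abs_moebius_le_one
      have hpow : (n : ℝ) ^ (3 / 2 : ℝ) ≤ (n : ℝ) ^ s.re :=
        Real.rpow_le_rpow_of_exponent_le hn1 hs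
      have hpos : 0 < (n : ℝ) ^ (3 / 2 : ℝ) := by positivity
      gcongr
  unfold LSeries
  have hs2 : Summable (fun n : ℕ =>
      ‖LSeries.term (fun n => ((ArithmeticFunction.moebius n : ℤ) : ℂ)) s n‖) :=
    Summable.of_nonneg_of_le (fun _ => norm_nonneg _) hterm hsum
  exact ((norm_tsum_le_tsum_norm hs2).trans (hs2.tsum_le_tsum hterm hsum)).trans (le_max_right _ _)

/-- lower bound for `ζ` by integrating `ζ'/ζ` -/
theorem low (M t σ : ℝ) (ht : 0 < t) (hσ : σ ≤ 3 / 2)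
    (h : ∀ x ∈ Icc σ (3 / 2), riemannZeta (⟨x, t⟩ : ℂ) ≠ 0 ∧
      ‖deriv riemannZeta (⟨x, t⟩ : ℂ) / riemannZeta (⟨x, t⟩ : ℂ)‖ ≤ M) :
    ‖riemannZeta (⟨3 / 2, t⟩ : ℂ)‖ ≤ ‖riemannZeta (⟨σ, t⟩ : ℂ)‖ * Real.exp (M * (3 / 2 - σ)) := by
  have hne : ∀ x : ℝ, (⟨x, t⟩ : ℂ) ≠ 1 := by
    intro x hx
    have := congrArg Complex.im hx
    simp only [one_im] at this
    linarith
  have hd : ∀ x : ℝ, HasDerivAt (fun x : ℝ => riemannZeta (⟨x, t⟩ : ℂ))
      (deriv riemannZeta (⟨x, t⟩ : ℂ)) x := by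
    intro x
    have h1 : HasDerivAt (fun x : ℝ => (⟨x, t⟩ : ℂ)) 1 x := by
      have e : (fun x : ℝ => (⟨x, t⟩ : ℂ)) = fun x : ℝ => (x : ℂ) + t * I := by
        funext u; apply Complex.ext <;> simp
      rw [e]
      exact (Complex.ofRealCLM.hasDerivAt (x := x)).add_const _
    have := HasDerivAt.scomp (g₁ := riemannZeta) (h := fun x : ℝ => (⟨x, t⟩ : ℂ)) x
        ((differentiableAt_riemannZeta (hne x)).hasDerivAt) h1
    rw [one_smul] at this
    exact this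
  have hcont : ContinuousOn (fun x : ℝ => riemannZeta (⟨x, t⟩ : ℂ)) (Icc σ (3 / 2)) :=
    fun x _ => (hd x).continuousAt.continuousWithinAt
  have hb : ∀ x ∈ Ico σ (3 / 2), ‖deriv riemannZeta (⟨x, t⟩ : ℂ)‖ ≤
      M * ‖riemannZeta (⟨x, t⟩ : ℂ)‖ + 0 := by
    intro x hx
    obtain ⟨h1, h2⟩ := h x ⟨hx.1, hx.2.le⟩
    rw [norm_div, div_le_iff₀ (norm_pos_iff.2 h1)] at h2
    linarith
  have := norm_le_gronwallBound_of_norm_deriv_right_le hcont
    (fun x _ => (hd x).hasDerivWithinAt) (le_refl _) hb (3 / 2) ⟨hσ, le_rfl⟩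
  rwa [gronwallBound_ε0] at this

/-- the right half of a good segment -/
theorem right_half (c : ℝ) (hc : 0 < c) (hc1 : c < 1) :
    ∃ C T0 : ℝ, 0 < C ∧ 10 ≤ T0 ∧ ∀ T : ℝ, T0 ≤ T →
    ∀ a : ℝ, T ≤ a → a ≤ 2 * T → ∃ U : ℝ, a ≤ U ∧ U ≤ a + 1 ∧ ∀ σ : ℝ, 1 / 2 ≤ σ → σ ≤ 6 →
    completedRiemannZeta ((⟨σ, U⟩ : ℂ) + hh (dl c T)) ≠ 0 ∧
    ‖SP.ff c T (⟨σ, U⟩ : ℂ)‖ ≤ Real.exp (C * Real.log T ^ 2) := by
  obtain ⟨Cz, A, hCz, hA, hgr⟩ := SG.zeta_growth
  obtain ⟨Cg, hCg, hgam⟩ := SG.gam_shift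
  obtain ⟨B, hB, hright⟩ := zeta_inv_right
  obtain ⟨Ch, hCh, hheight⟩ := H370.good_height H370.good_zeta
  refine ⟨2 * Cg + (Cz + 2 * A) + (B + 4 * Ch), Real.exp 80, by positivity, ?_,
    fun T hTe a ha1 ha2 => ?_⟩
  · have := Real.add_one_le_exp (80:ℝ)
    linarith
  have hT81 : 81 ≤ T := by
    have := Real.add_one_le_exp (80:ℝ)
    linarith
  have hLb : 80 ≤ Real.log T := (Real.le_log_iff_exp_le (by linarith)).2 hTe
  set L : ℝ := Real.log T with hL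
  have hL0 : 0 < L := by linarith
  set δ : ℝ := dl c T with hδ
  have hδL : L * δ = 2 * Real.pi * c := by
    rw [hδ]; unfold SG.dl; rw [← hL]; field_simp
  have hδ0 : 0 < δ := by
    rw [hδ]; unfold SG.dl; positivity
  have hδ8 : L * δ ≤ 8 := by
    rw [hδL]; nlinarith [Real.pi_pos, Real.pi_lt_d2]
  have hδs : δ ≤ 1 / 10 := by
    by_contra hcon
    push Not at hcon
    nlinarith
  obtain ⟨U', hU'1, hU'⟩ := hheight (a + δ / 2) (by linarith)
  rw [Set.mem_Icc] at hU'1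
  refine ⟨U' - δ / 2, by linarith, by linarith, fun σ hσ1 hσ2 => ?_⟩
  set s : ℂ := ⟨σ, U' - δ / 2⟩ with hs
  have em : s - hh δ = ⟨σ, U' - δ⟩ := by
    apply Complex.ext
    · simp [SG.hh, hs]
    · simp [SG.hh, hs]; ring
  have ep : s + hh δ = ⟨σ, U'⟩ := by
    apply Complex.ext <;> simp [SG.hh, hs]
  have hmre : (s - hh δ).re = σ := by rw [em]
  have hmim : (s - hh δ).im = U' - δ := by rw [em]
  have hpre : (s + hh δ).re = σ := by rw [ep]
  have hpim : (s + hh δ).im = U' := by rw [ep]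
  have hre0 : 0 < σ := by linarith
  have hU'80 : 80 ≤ U' := by linarith
  have hlogU : ∀ x : ℝ, 1 ≤ x → x ≤ 2 * T + 3 → Real.log x ≤ 2 * L := by
    intro x hx1 hx2
    have : Real.log x ≤ Real.log (T ^ 2) :=
      Real.log_le_log (by linarith) (by nlinarith)
    rw [Real.log_pow] at this
    exact_mod_cast this
  -- lower bound of `ζ`
  have hzlow : riemannZeta (s + hh δ) ≠ 0 ∧
      ‖(riemannZeta (s + hh δ))⁻¹‖ ≤ Real.exp ((B + 4 * Ch) * L ^ 2) := by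
    rw [ep]
    have hBe : B ≤ Real.exp (B * L ^ 2) := by
      have h1 := Real.add_one_le_exp (B * L ^ 2)
      have h2 : (1 : ℝ) ≤ L ^ 2 := by nlinarith
      have h3 : B * 1 ≤ B * L ^ 2 := mul_le_mul_of_nonneg_left h2 (by linarith)
      linarith
    rcases le_or_gt (3 / 2) σ with h32 | h32
    · obtain ⟨h1, h2⟩ := hright (⟨σ, U'⟩ : ℂ) h32
      refine ⟨h1, h2.trans (hBe.trans (Real.exp_le_exp.2 ?_))⟩
      have : 0 ≤ 4 * Ch * L ^ 2 := by positivity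
      linarith
    · have hM : ∀ x ∈ Icc σ (3 / 2), riemannZeta (⟨x, U'⟩ : ℂ) ≠ 0 ∧
          ‖deriv riemannZeta (⟨x, U'⟩ : ℂ) / riemannZeta (⟨x, U'⟩ : ℂ)‖ ≤ 4 * Ch * L ^ 2 := by
        intro x hx
        obtain ⟨h1, h2⟩ := hU' x ⟨by linarith [hx.1], hx.2⟩
        refine ⟨h1, h2.trans ?_⟩
        have h3 := hlogU (a + δ / 2) (by linarith) (by linarith)
        have h4 : 0 ≤ Real.log (a + δ / 2) := Real.log_nonneg (by linarith)
        calc Ch * Real.log (a + δ / 2) ^ 2 ≤ Ch * (2 * L) ^ 2 := by gcongr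
          _ = 4 * Ch * L ^ 2 := by ring
      have h1 := low (4 * Ch * L ^ 2) U' σ (by linarith) h32.le hM
      have h2 := (hM σ ⟨le_rfl, h32.le⟩).1
      refine ⟨h2, ?_⟩
      obtain ⟨h3, h4⟩ := hright (⟨3 / 2, U'⟩ : ℂ) le_rfl
      have hp2 : 0 < ‖riemannZeta (⟨σ, U'⟩ : ℂ)‖ := norm_pos_iff.2 h2
      have hp3 : 0 < ‖riemannZeta (⟨3 / 2, U'⟩ : ℂ)‖ := norm_pos_iff.2 h3
      have h5 : Real.exp (4 * Ch * L ^ 2 * (3 / 2 - σ)) ≤ Real.exp (4 * Ch * L ^ 2) := by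
        apply Real.exp_le_exp.2
        have : 0 ≤ 4 * Ch * L ^ 2 := by positivity
        nlinarith
      have h6 : ‖riemannZeta (⟨3 / 2, U'⟩ : ℂ)‖ ≤
          ‖riemannZeta (⟨σ, U'⟩ : ℂ)‖ * Real.exp (4 * Ch * L ^ 2) :=
        h1.trans (by gcongr)
      have h7 : ‖(riemannZeta (⟨σ, U'⟩ : ℂ))⁻¹‖ ≤
          ‖(riemannZeta (⟨3 / 2, U'⟩ : ℂ))⁻¹‖ * Real.exp (4 * Ch * L ^ 2) := by
        rw [norm_inv, norm_inv, inv_mul_eq_div, inv_eq_one_div, div_le_div_iff₀ hp2 hp3]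
        linarith
      calc _ ≤ B * Real.exp (4 * Ch * L ^ 2) := h7.trans (by gcongr)
        _ ≤ Real.exp (B * L ^ 2) * Real.exp (4 * Ch * L ^ 2) := by gcongr
        _ = Real.exp ((B + 4 * Ch) * L ^ 2) := by rw [← Real.exp_add]; congr 1; ring
  have hden : completedRiemannZeta (s + hh δ) ≠ 0 := by
    rw [SP.completedZeta_eq _ (by rw [hpre]; exact hre0)]
    exact mul_ne_zero (Gammaℝ_ne_zero_of_re_pos (by rw [hpre]; exact hre0)) hzlow.1
  refine ⟨hden, ?_⟩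
  have hff : SP.ff c T s = (Gammaℝ (s - hh δ) / Gammaℝ (s - hh δ + I * δ)) *
      (riemannZeta (s - hh δ) / riemannZeta (s + hh δ)) := by
    unfold SP.ff
    rw [← hδ, SP.completedZeta_eq _ (by rw [hmre]; exact hre0),
      SP.completedZeta_eq _ (by rw [hpre]; exact hre0), mul_div_mul_comm]
    congr 3
    unfold SG.hh
    push_cast
    ring
  have hmabs : |(s - hh δ).im| = U' - δ := by
    rw [hmim, abs_of_pos (by linarith)]
  have h3 := (hgam (s - hh δ) δ (by rw [hmabs]; linarith)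
    (by rw [hmabs, hmre, abs_of_pos hre0]; linarith)
    (by rw [abs_of_pos hδ0]; linarith)).2
  have hlog2 : Real.log (U' - δ) ≤ 2 * L := hlogU _ (by linarith) (by linarith)
  have hlog0 : 0 ≤ Real.log (U' - δ) := Real.log_nonneg (by linarith)
  have h4 : ‖Gammaℝ (s - hh δ) / Gammaℝ (s - hh δ + I * δ)‖ ≤ Real.exp (2 * Cg * L ^ 2) := by
    refine h3.trans (Real.exp_le_exp.2 ?_)
    rw [hmabs, abs_of_pos hδ0]
    have h5 : Cg * δ ≤ Cg := by nlinarith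
    calc Cg * δ * Real.log (U' - δ) ≤ Cg * (2 * L) :=
          mul_le_mul h5 hlog2 hlog0 (by linarith)
      _ = 2 * Cg * L := by ring
      _ ≤ 2 * Cg * L ^ 2 := mul_le_mul_of_nonneg_left (by nlinarith) (by linarith)
  have h5 := hgr (s - hh δ) (by rw [hmre]; linarith) (by rw [hmre]; exact hσ2)
    (by rw [hmabs]; linarith)
  have h6 : ‖riemannZeta (s - hh δ)‖ ≤ Real.exp ((Cz + 2 * A) * L ^ 2) := by
    refine h5.trans ?_
    rw [hmabs]
    have h7 : (U' - δ) ^ A = Real.exp (A * Real.log (U' - δ)) := by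
      rw [Real.rpow_def_of_pos (by linarith), mul_comm]
    have h8 : Cz ≤ Real.exp Cz := by
      have := Real.add_one_le_exp Cz
      linarith
    rw [h7]
    calc Cz * Real.exp (A * Real.log (U' - δ)) ≤
          Real.exp Cz * Real.exp (A * (2 * L)) := by gcongr
      _ = Real.exp (Cz + A * (2 * L)) := (Real.exp_add _ _).symm
      _ ≤ Real.exp ((Cz + 2 * A) * L ^ 2) := Real.exp_le_exp.2 (by
        have : L ≤ L ^ 2 := by nlinarith
        have h9 : Cz ≤ Cz * L ^ 2 := by nlinarith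
        nlinarith)
  rw [hff, norm_mul, div_eq_mul_inv (riemannZeta _), norm_mul]
  calc ‖Gammaℝ (s - hh δ) / Gammaℝ (s - hh δ + I * δ)‖ *
        (‖riemannZeta (s - hh δ)‖ * ‖(riemannZeta (s + hh δ))⁻¹‖)
      ≤ Real.exp (2 * Cg * L ^ 2) *
        (Real.exp ((Cz + 2 * A) * L ^ 2) * Real.exp ((B + 4 * Ch) * L ^ 2)) := by
        have := hzlow.2
        gcongr
    _ = Real.exp ((2 * Cg + (Cz + 2 * A) + (B + 4 * Ch)) * L ^ 2) := by
        rw [← Real.exp_add, ← Real.exp_add]; congr 1; ring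

/-- PP-HOR: good heights for `f` -/
theorem t_hor : S_hor := by
  intro c hc hc1
  obtain ⟨C, T0, hC, hT0, hR⟩ := right_half c hc hc1
  refine ⟨C, T0, hC, fun T hT a ha1 ha2 => ?_⟩
  obtain ⟨U, hU1, hU2, hU⟩ := hR T hT a ha1 ha2
  refine ⟨U, hU1, hU2, fun σ hσ1 hσ2 => ?_⟩
  rcases le_or_gt (1 / 2) σ with h | h
  · exact hU σ h hσ2
  · obtain ⟨h1, h2⟩ := hU (1 - σ) (by linarith) (by linarith)
    have e1 : ∀ x : ℝ, completedRiemannZeta ((⟨σ, U⟩ : ℂ) + hh x) =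
        (starRingEnd ℂ) (completedRiemannZeta ((⟨1 - σ, U⟩ : ℂ) + hh x)) := by
      intro x
      rw [← SG.SignAux.Lam_conj, ← completedRiemannZeta_one_sub]
      have hr : (hh x).re = 0 := by simp [SG.hh]
      have hi : (hh x).im = x / 2 := by simp [SG.hh]
      congr 1
      apply Complex.ext
      · simp only [conj_re, add_re, sub_re, one_re, hr]
        ring
      · simp only [conj_im, add_im, sub_im, one_im, hi]
        ring
    have e2 : hh (-(dl c T)) = -hh (dl c T) := by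
      unfold SG.hh
      push_cast
      ring
    constructor
    · rw [e1]
      intro h0
      exact h1 ((map_eq_zero _).1 h0)
    · have e3 : SP.ff c T (⟨σ, U⟩ : ℂ) = (starRingEnd ℂ) (SP.ff c T (⟨1 - σ, U⟩ : ℂ)) := by
        unfold SP.ff
        have e4 := e1 (-(dl c T))
        rw [e2, ← sub_eq_add_neg, ← sub_eq_add_neg] at e4
        rw [e4, e1, map_div₀]
      rw [e3, Complex.norm_conj]
      exact h2

end Pool.Agent.W578.PPHor
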