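import Mathlib
import Pool.Agent.W198.TC.Stms

/-!
# The triple diagonal is bounded
-/

namespace TC

namespace C0aux

/-- the majorant -/
noncomputable def g (x : ℕ × ℕ × ℕ) : ℝ :=
  864 * (1 / (x.1 : ℝ) ^ (3 / 2 : ℝ)) * ((1 / 2 : ℝ) ^ x.2.1 * (1 / 2 : ℝ) ^ x.2.2)

theorem g_nonneg (x : ℕ × ℕ × ℕ) : 0 ≤ g x := by
  unfold g; positivity

theorem lam_nonneg' (n : ℕ) : 0 ≤ lam n :=
  div_nonneg ArithmeticFunction.vonMangoldt_nonneg (Real.sqrt_nonneg _)

theorem log_cube (p : ℕ) (hp : 1 ≤ p) :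
    Real.log p ^ 3 ≤ 216 * (p : ℝ) ^ (1 / 2 : ℝ) := by
  have h0 : (0 : ℝ) ≤ p := Nat.cast_nonneg p
  have h1 : Real.log p ≤ (p : ℝ) ^ (1 / 6 : ℝ) / (1 / 6) := Real.log_le_rpow_div h0 (by norm_num)
  have h2 : 0 ≤ Real.log p := Real.log_nonneg (by exact_mod_cast hp)
  have h3 : Real.log p ^ 3 ≤ ((p : ℝ) ^ (1 / 6 : ℝ) / (1 / 6)) ^ 3 := pow_le_pow_left₀ h2 h1 3
  have h4 : ((p : ℝ) ^ (1 / 6 : ℝ)) ^ 3 = (p : ℝ) ^ (1 / 2 : ℝ) := by
    rw [← Real.rpow_natCast, ← Real.rpow_mul h0]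
    norm_num
  calc Real.log p ^ 3 ≤ ((p : ℝ) ^ (1 / 6 : ℝ) / (1 / 6)) ^ 3 := h3
    _ = 216 * ((p : ℝ) ^ (1 / 6 : ℝ)) ^ 3 := by ring
    _ = _ := by rw [h4]

theorem term_le (p i j : ℕ) (hp : p.Prime) (hi : i ≠ 0) (hj : j ≠ 0) :
    lam (p ^ i) * lam (p ^ j) * lam (p ^ i * p ^ j) ≤ g (p, i, j) := by
  have hp2 : (2 : ℝ) ≤ p := by exact_mod_cast hp.two_le
  have hp0 : (0 : ℝ) < p := by linarith
  have hL : ∀ k : ℕ, k ≠ 0 → ArithmeticFunction.vonMangoldt (p ^ k) = Real.log p := by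
    intro k hk
    rw [ArithmeticFunction.vonMangoldt_apply_pow hk, ArithmeticFunction.vonMangoldt_apply_prime hp]
  unfold lam
  rw [← pow_add, hL i hi, hL j hj, hL (i + j) (by omega)]
  have hs : Real.sqrt ((p ^ i : ℕ) : ℝ) * Real.sqrt ((p ^ j : ℕ) : ℝ) *
      Real.sqrt ((p ^ (i + j) : ℕ) : ℝ) = (p : ℝ) ^ (i + j) := by
    push_cast
    rw [← Real.sqrt_mul (by positivity), ← pow_add, Real.mul_self_sqrt (by positivity)]
  have he : Real.log p / Real.sqrt ((p ^ i : ℕ) : ℝ) * (Real.log p / Real.sqrt ((p ^ j : ℕ) : ℝ)) *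
      (Real.log p / Real.sqrt ((p ^ (i + j) : ℕ) : ℝ)) = Real.log p ^ 3 / (p : ℝ) ^ (i + j) := by
    rw [div_mul_div_comm, div_mul_div_comm, hs]
    ring
  rw [he]
  obtain ⟨i', rfl⟩ := Nat.exists_eq_succ_of_ne_zero hi
  obtain ⟨j', rfl⟩ := Nat.exists_eq_succ_of_ne_zero hj
  have h1 := log_cube p hp.one_le
  have h2 : (p : ℝ) ^ (i'.succ + j'.succ) = (p : ℝ) ^ 2 * ((p : ℝ) ^ i' * (p : ℝ) ^ j') := by
    rw [← pow_add, ← pow_add]
    congr 1
    omega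
  have h3 : (2 : ℝ) ^ i' ≤ (p : ℝ) ^ i' := pow_le_pow_left₀ (by norm_num) hp2 i'
  have h4 : (2 : ℝ) ^ j' ≤ (p : ℝ) ^ j' := pow_le_pow_left₀ (by norm_num) hp2 j'
  have h5 : (p : ℝ) ^ (1 / 2 : ℝ) / (p : ℝ) ^ 2 = 1 / (p : ℝ) ^ (3 / 2 : ℝ) := by
    rw [div_eq_div_iff (by positivity) (by positivity), ← Real.rpow_add hp0, one_mul,
      ← Real.rpow_natCast]
    norm_num
  calc Real.log p ^ 3 / (p : ℝ) ^ (i'.succ + j'.succ)
      ≤ (216 * (p : ℝ) ^ (1 / 2 : ℝ)) / (p : ℝ) ^ (i'.succ + j'.succ) := by gcongr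
    _ = 216 * ((p : ℝ) ^ (1 / 2 : ℝ) / (p : ℝ) ^ 2) * (1 / ((p : ℝ) ^ i' * (p : ℝ) ^ j')) := by
        rw [h2]; field_simp
    _ ≤ 216 * ((p : ℝ) ^ (1 / 2 : ℝ) / (p : ℝ) ^ 2) * (1 / ((2 : ℝ) ^ i' * (2 : ℝ) ^ j')) := by
        gcongr
    _ = 216 * (1 / (p : ℝ) ^ (3 / 2 : ℝ)) * (1 / ((2 : ℝ) ^ i' * (2 : ℝ) ^ j')) := by rw [h5]
    _ = g (p, i'.succ, j'.succ) := by
        unfold g
        simp only [Nat.succ_eq_add_one, pow_succ, one_div, inv_pow]
        field_simp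
        norm_num

theorem pair_le (N a b : ℕ) (ha : a ∈ Finset.Icc 2 N) (hb : b ∈ Finset.Icc 2 N) :
    lam a * lam b * lam (a * b) ≤
      ∑ x ∈ Finset.range (N + 1) ×ˢ (Finset.range (N + 1) ×ˢ Finset.range (N + 1)),
        (if x.1 ^ x.2.1 = a ∧ x.1 ^ x.2.2 = b then g x else 0) := by
  rw [Finset.mem_Icc] at ha hb
  have hnn : ∀ x ∈ Finset.range (N + 1) ×ˢ (Finset.range (N + 1) ×ˢ Finset.range (N + 1)),
      0 ≤ (if x.1 ^ x.2.1 = a ∧ x.1 ^ x.2.2 = b then g x else 0) := by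
    intro x _
    split_ifs
    · exact g_nonneg x
    · exact le_rfl
  by_cases h : ArithmeticFunction.vonMangoldt (a * b) = 0
  · have : lam (a * b) = 0 := by unfold lam; rw [h]; simp
    rw [this, mul_zero]
    exact Finset.sum_nonneg hnn
  · have hpp : IsPrimePow (a * b) := ArithmeticFunction.vonMangoldt_ne_zero_iff.1 h
    obtain ⟨p, k, hp, hk, hpk⟩ := (isPrimePow_nat_iff _).1 hpp
    obtain ⟨i, hi1, hi2⟩ := (Nat.dvd_prime_pow hp).1 (hpk ▸ Dvd.intro b rfl : a ∣ p ^ k)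
    obtain ⟨j, hj1, hj2⟩ := (Nat.dvd_prime_pow hp).1 (hpk ▸ Dvd.intro_left a rfl : b ∣ p ^ k)
    have hi : i ≠ 0 := by
      rintro rfl
      rw [pow_zero] at hi2
      omega
    have hj : j ≠ 0 := by
      rintro rfl
      rw [pow_zero] at hj2
      omega
    have hpa : p ≤ a := by
      rw [hi2]
      exact Nat.le_self_pow hi p
    have hia : i < a := by
      rw [hi2]
      exact Nat.lt_pow_self hp.one_lt
    have hjb : j < b := by
      rw [hj2]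
      exact Nat.lt_pow_self hp.one_lt
    have hx : ((p, i, j) : ℕ × ℕ × ℕ) ∈
        Finset.range (N + 1) ×ˢ (Finset.range (N + 1) ×ˢ Finset.range (N + 1)) := by
      simp only [Finset.mem_product, Finset.mem_range]
      omega
    refine le_trans ?_ (Finset.single_le_sum hnn hx)
    rw [if_pos ⟨hi2.symm, hj2.symm⟩, hi2, hj2]
    exact term_le p i j hp hi hj

end C0aux

open C0aux in
/-- C0: the triple diagonal is bounded -/
theorem c0 : S_C0 := by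
  have hsum : Summable (fun n : ℕ => 1 / (n : ℝ) ^ (3 / 2 : ℝ)) :=
    Real.summable_one_div_nat_rpow.2 (by norm_num)
  set S : ℝ := ∑' n : ℕ, 1 / (n : ℝ) ^ (3 / 2 : ℝ) with hS
  have hS0 : 0 ≤ S := tsum_nonneg fun n => by positivity
  refine ⟨864 * S * (2 * 2) + 1, by positivity, fun N => ?_⟩
  have hgeo : ∀ M : ℕ, ∑ i ∈ Finset.range M, (1 / 2 : ℝ) ^ i ≤ 2 := by
    intro M
    have h := (summable_geometric_two).sum_le_tsum (Finset.range M)
      (fun i _ => by positivity)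
    rwa [tsum_geometric_two] at h
  calc ∑ a ∈ Finset.Icc 2 N, ∑ b ∈ Finset.Icc 2 N, lam a * lam b * lam (a * b)
      ≤ ∑ a ∈ Finset.Icc 2 N, ∑ b ∈ Finset.Icc 2 N,
        ∑ x ∈ Finset.range (N + 1) ×ˢ (Finset.range (N + 1) ×ˢ Finset.range (N + 1)),
        (if x.1 ^ x.2.1 = a ∧ x.1 ^ x.2.2 = b then g x else 0) :=
        Finset.sum_le_sum fun a ha => Finset.sum_le_sum fun b hb => pair_le N a b ha hb
    _ = ∑ x ∈ Finset.range (N + 1) ×ˢ (Finset.range (N + 1) ×ˢ Finset.range (N + 1)),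
        ∑ a ∈ Finset.Icc 2 N, ∑ b ∈ Finset.Icc 2 N,
        (if x.1 ^ x.2.1 = a ∧ x.1 ^ x.2.2 = b then g x else 0) := by
        rw [Finset.sum_congr rfl (fun a _ => Finset.sum_comm)]
        exact Finset.sum_comm
    _ ≤ ∑ x ∈ Finset.range (N + 1) ×ˢ (Finset.range (N + 1) ×ˢ Finset.range (N + 1)), g x := by
        refine Finset.sum_le_sum fun x _ => ?_
        have h1 : ∀ a ∈ Finset.Icc 2 N, ∑ b ∈ Finset.Icc 2 N,
            (if x.1 ^ x.2.1 = a ∧ x.1 ^ x.2.2 = b then g x else 0) ≤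
            if x.1 ^ x.2.1 = a then g x else 0 := by
          intro a _
          by_cases h : x.1 ^ x.2.1 = a
          · simp only [h, true_and, if_true]
            rw [Finset.sum_ite_eq]
            split_ifs
            · exact le_rfl
            · exact g_nonneg x
          · simp [h]
        refine (Finset.sum_le_sum h1).trans ?_
        rw [Finset.sum_ite_eq]
        split_ifs
        · exact le_rfl
        · exact g_nonneg x
    _ = 864 * (∑ n ∈ Finset.range (N + 1), 1 / (n : ℝ) ^ (3 / 2 : ℝ)) *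
        ((∑ i ∈ Finset.range (N + 1), (1 / 2 : ℝ) ^ i) *
          (∑ j ∈ Finset.range (N + 1), (1 / 2 : ℝ) ^ j)) := by
        rw [Finset.mul_sum, Finset.sum_mul_sum, Finset.sum_product]
        simp only [Finset.sum_product]
        rw [Finset.sum_mul]
        refine Finset.sum_congr rfl fun p _ => ?_
        rw [Finset.mul_sum]
        refine Finset.sum_congr rfl fun i _ => ?_
        rw [Finset.mul_sum]
        refine Finset.sum_congr rfl fun j _ => ?_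
        rfl
    _ ≤ 864 * S * (2 * 2) := by
        have hA : (∑ n ∈ Finset.range (N + 1), 1 / (n : ℝ) ^ (3 / 2 : ℝ)) ≤ S :=
          hsum.sum_le_tsum _ (fun n _ => by positivity)
        have hB := hgeo (N + 1)
        gcongr
    _ ≤ _ := by linarith

end TC
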