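import Mathlib
import Pool.Agent.W982.CP.Geo

/-!
# CP-PART: structure of a part in convex position
-/

namespace Pool.Agent.W982.CP

namespace PartAux

theorem heavy (n t : ℕ) (T : List (ℚ × ℚ)) (b : Blob) (m : ℕ) (h : 3 ≤ cls n t T b m) :
    ∃ i j k : ℕ, i < j ∧ j < k ∧ k < t ∧ pt n t b m i ∈ T ∧ pt n t b m j ∈ T ∧
      pt n t b m k ∈ T := by
  unfold cls at h
  set l := (List.range t).filter fun k => decide (pt n t b m k ∈ T) with hl
  have hmem : ∀ x ∈ l, x < t ∧ pt n t b m x ∈ T := by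
    intro x hx
    rw [hl, List.mem_filter, List.mem_range] at hx
    exact ⟨hx.1, by simpa using hx.2⟩
  have hp : l.Pairwise (· < ·) := (List.pairwise_lt_range).filter _
  clear_value l
  match l, h, hmem, hp with
  | [], h, _, _ => simp at h
  | [_], h, _, _ => simp at h
  | [_, _], h, _, _ => simp at h
  | x :: y :: z :: r, _, hmem, hp =>
    have hx := hmem x (by simp)
    have hy := hmem y (by simp)
    have hz := hmem z (by simp)
    rw [List.pairwise_cons, List.pairwise_cons] at hp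
    exact ⟨x, y, z, hp.1 y (by simp), hp.2.1 z (by simp), hz.1, hx.2, hy.2, hz.2⟩

theorem cls_le (n t : ℕ) (T : List (ℚ × ℚ)) (b : Blob) (m : ℕ) : cls n t T b m ≤ t := by
  unfold cls
  refine (List.length_filter_le _ _).trans ?_
  rw [List.length_range]

/-- a sum with at most one heavy term -/
theorem sum_le {ι : Type*} [DecidableEq ι] (s : Finset ι) (f : ι → ℕ) (t : ℕ)
    (h1 : ∀ x ∈ s, f x ≤ t) (h2 : ∀ x ∈ s, ∀ y ∈ s, 3 ≤ f x → 3 ≤ f y → x = y) :
    ∑ x ∈ s, f x ≤ t + 2 * s.card ∧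
    (t + 4 * s.card < 2 * ∑ x ∈ s, f x → ∃ x ∈ s, t < 2 * f x ∧ ∀ y ∈ s, y ≠ x → f y ≤ 2) := by
  by_cases h : ∃ x ∈ s, 3 ≤ f x
  · obtain ⟨x, hx, hx3⟩ := h
    have h3 : ∀ y ∈ s, y ≠ x → f y ≤ 2 := by
      intro y hy hyx
      by_contra h4
      exact hyx (h2 y hy x hx (by omega) hx3)
    have h5 : ∑ y ∈ s, f y = f x + ∑ y ∈ s.erase x, f y := (Finset.add_sum_erase s f hx).symm
    have h6 : ∑ y ∈ s.erase x, f y ≤ (s.erase x).card * 2 := by
      rw [← smul_eq_mul]
      refine Finset.sum_le_card_nsmul _ _ _ ?_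
      intro y hy
      rw [Finset.mem_erase] at hy
      exact h3 y hy.2 hy.1
    have h7 : (s.erase x).card ≤ s.card := Finset.card_erase_le
    have h8 := h1 x hx
    refine ⟨by omega, fun h9 => ⟨x, hx, by omega, h3⟩⟩
  · push Not at h
    have h6 : ∑ y ∈ s, f y ≤ s.card * 2 := by
      rw [← smul_eq_mul]
      refine Finset.sum_le_card_nsmul _ _ _ ?_
      intro y hy
      have := h y hy
      omega
    exact ⟨by omega, fun h9 => by omega⟩

theorem mem_blobs (E : List (ℕ × ℕ)) (b : Blob) : b ∈ blobs E ↔ b.1 ∈ E ∧ b.2 < 4 := by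
  unfold blobs
  rw [List.mem_flatMap]
  constructor
  · rintro ⟨e, he, hb⟩
    rw [List.mem_map] at hb
    obtain ⟨τ, hτ, rfl⟩ := hb
    exact ⟨he, List.mem_range.1 hτ⟩
  · rintro ⟨h1, h2⟩
    exact ⟨b.1, h1, List.mem_map.2 ⟨b.2, List.mem_range.2 h2, rfl⟩⟩

theorem sum_blobs (E : List (ℕ × ℕ)) (hE : E.Nodup) (f : Blob → ℕ) :
    ((blobs E).map f).sum = ∑ τ ∈ Finset.range 4, ∑ e ∈ E.toFinset, f (e, τ) := by
  unfold blobs
  rw [Finset.sum_comm, List.sum_toFinset _ hE]
  clear hE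
  induction E with
  | nil => simp
  | cons e E ih =>
    rw [List.flatMap_cons, List.map_append, List.sum_append, ih, List.map_cons, List.sum_cons]
    congr 1

/-- col and row determine the arc -/
theorem arc_eq (e e' : ℕ × ℕ) (τ : ℕ) (h1 : col (e, τ) = col (e', τ))
    (h2 : row (e, τ) = row (e', τ)) : e = e' := by
  unfold col row at *
  by_cases h : τ % 2 = 0
  · simp only [h, if_true] at h1 h2
    exact Prod.ext h2 h1
  · simp only [h, if_false] at h1 h2
    exact Prod.ext h1 h2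

end PartAux

open PartAux

theorem t_PART : S_FV → S_FU → S_FM → S_CNT → S_NOD → S_PART := by
  intro hFV hFU hFM hCNT hNOD n t E hnd hE ht T hT hsub hconv
  have hcard : E.toFinset.card = E.length := List.toFinset_card_of_nodup hnd
  have hcol : ∀ e ∈ E, ∀ τ, col (e, τ) < n ∧ row (e, τ) < n := by
    intro e he τ
    have h := hE e he
    unfold col row
    by_cases h0 : τ % 2 = 0
    · simp only [h0, if_true]
      exact ⟨h.2, h.1⟩
    · simp only [h0, if_false]
      exact h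
  -- the three forbidding lemmas in terms of heavy classes
  have cV : ∀ e ∈ E, ∀ e' ∈ E, ∀ τ < 4, ∀ τ' < 4, ∀ m' < 3, 3 ≤ cls n t T (e, τ) 0 →
      3 ≤ cls n t T (e', τ') m' → xs (e', τ') = xs (e, τ) →
      col (e', τ') ≤ col (e, τ) ∧ (col (e', τ') = col (e, τ) → ys (e', τ') = ys (e, τ) →
        row (e, τ) ≤ row (e', τ')) := by
    intro e he e' he' τ hτ τ' hτ' m' hm' h h' hx
    obtain ⟨i, j, k, hij, hjk, hkt, hi, hj, hk⟩ := heavy n t T _ _ h
    obtain ⟨i', j', k', hij', hjk', hkt', hi', hj', hk'⟩ := heavy n t T _ _ h'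
    exact hFV n t T hconv (e, τ) (e', τ') hτ hτ' (hcol e he τ).1 (hcol e he τ).2
      (hcol e' he' τ').1 (hcol e' he' τ').2 i j k m' k' hij hjk hkt hm' hkt' hi hj hk hk' hx
  have cU : ∀ e ∈ E, ∀ e' ∈ E, ∀ τ < 4, ∀ τ' < 4, ∀ m' < 3, 3 ≤ cls n t T (e, τ) 2 →
      3 ≤ cls n t T (e', τ') m' → ys (e', τ') = ys (e, τ) →
      row (e, τ) ≤ row (e', τ') ∧ (row (e', τ') = row (e, τ) → xs (e', τ') = xs (e, τ) →
        col (e', τ') ≤ col (e, τ)) := by
    intro e he e' he' τ hτ τ' hτ' m' hm' h h' hx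
    obtain ⟨i, j, k, hij, hjk, hkt, hi, hj, hk⟩ := heavy n t T _ _ h
    obtain ⟨i', j', k', hij', hjk', hkt', hi', hj', hk'⟩ := heavy n t T _ _ h'
    exact hFU n t T hconv (e, τ) (e', τ') hτ hτ' (hcol e he τ).1 (hcol e he τ).2
      (hcol e' he' τ').1 (hcol e' he' τ').2 i j k m' k' hij hjk hkt hm' hkt' hi hj hk hk' hx
  have cM : ∀ e ∈ E, ∀ e' ∈ E, ∀ τ < 4, ∀ m' < 3, 3 ≤ cls n t T (e, τ) 1 →
      3 ≤ cls n t T (e', τ) m' → col (e', τ) ≤ col (e, τ) ∧ row (e, τ) ≤ row (e', τ) := by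
    intro e he e' he' τ hτ m' hm' h h'
    obtain ⟨i, j, k, hij, hjk, hkt, hi, hj, hk⟩ := heavy n t T _ _ h
    obtain ⟨i', j', k', hij', hjk', hkt', hi', hj', hk'⟩ := heavy n t T _ _ h'
    exact hFM n t T hconv (e, τ) (e', τ) hτ rfl (hcol e he τ).1 (hcol e he τ).2
      (hcol e' he' τ).1 (hcol e' he' τ).2 i j k m' k' hij hjk hkt hm' hkt' hi hj hk hk'
  -- (A) uniqueness
  have hA : ∀ τ < 4, ∀ m < 3, ∀ e ∈ E, ∀ e' ∈ E, 3 ≤ cls n t T (e, τ) m →
      3 ≤ cls n t T (e', τ) m → e = e' := by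
    intro τ hτ m hm e he e' he' h h'
    interval_cases m
    · have a1 := cV e he e' he' τ hτ τ hτ 0 hm h h' rfl
      have a2 := cV e' he' e he τ hτ τ hτ 0 hm h' h rfl
      have hc : col (e', τ) = col (e, τ) := le_antisymm a1.1 a2.1
      exact arc_eq e e' τ hc.symm (le_antisymm (a1.2 hc rfl) (a2.2 hc.symm rfl))
    · have a1 := cM e he e' he' τ hτ 1 hm h h'
      have a2 := cM e' he' e he τ hτ 1 hm h' h
      exact arc_eq e e' τ (le_antisymm a2.1 a1.1) (le_antisymm a1.2 a2.2)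
    · have a1 := cU e he e' he' τ hτ τ hτ 2 hm h h' rfl
      have a2 := cU e' he' e he τ hτ τ hτ 2 hm h' h rfl
      have hr : row (e', τ) = row (e, τ) := le_antisymm a2.1 a1.1
      exact arc_eq e e' τ (le_antisymm (a2.2 hr.symm rfl) (a1.2 hr rfl)) hr.symm
  have hB := fun (τ : ℕ) (hτ : τ < 4) (m : ℕ) (hm : m < 3) =>
    sum_le E.toFinset (fun e => cls n t T (e, τ) m) t (fun e _ => cls_le n t T (e, τ) m)
      (fun x hx y hy h3 h3' => hA τ hτ m hm x (List.mem_toFinset.1 hx) y (List.mem_toFinset.1 hy)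
        h3 h3')
  simp only [hcard] at hB
  have hlen : T.length = ∑ τ ∈ Finset.range 4, ∑ m ∈ Finset.range 3,
      ∑ e ∈ E.toFinset, cls n t T (e, τ) m := by
    rw [hCNT n t E (hNOD n t E hnd hE) T hT hsub, sum_blobs E hnd]
    refine Finset.sum_congr rfl fun τ _ => ?_
    rw [Finset.sum_comm]
    refine Finset.sum_congr rfl fun e _ => ?_
    simp [Finset.sum_range_succ]
  have hlen' := hlen
  simp only [Finset.sum_range_succ, Finset.sum_range_zero, zero_add] at hlen'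
  have b00 := hB 0 (by norm_num) 0 (by norm_num)
  have b01 := hB 0 (by norm_num) 1 (by norm_num)
  have b02 := hB 0 (by norm_num) 2 (by norm_num)
  have b10 := hB 1 (by norm_num) 0 (by norm_num)
  have b11 := hB 1 (by norm_num) 1 (by norm_num)
  have b12 := hB 1 (by norm_num) 2 (by norm_num)
  have b20 := hB 2 (by norm_num) 0 (by norm_num)
  have b21 := hB 2 (by norm_num) 1 (by norm_num)
  have b22 := hB 2 (by norm_num) 2 (by norm_num)
  have b30 := hB 3 (by norm_num) 0 (by norm_num)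
  have b31 := hB 3 (by norm_num) 1 (by norm_num)
  have b32 := hB 3 (by norm_num) 2 (by norm_num)
  have c00 := b00.1
  have c01 := b01.1
  have c02 := b02.1
  have c10 := b10.1
  have c11 := b11.1
  have c12 := b12.1
  have c20 := b20.1
  have c21 := b21.1
  have c22 := b22.1
  have c30 := b30.1
  have c31 := b31.1
  have c32 := b32.1
  refine ⟨by omega, fun hfull => ?_⟩
  unfold Full at hfull
  have hC : ∀ τ < 4, ∀ m < 3, ∃ e ∈ E, t < 2 * cls n t T (e, τ) m ∧
      ∀ e' ∈ E, e' ≠ e → cls n t T (e', τ) m ≤ 2 := by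
    have key : ∀ τ < 4, ∀ m < 3,
        t + 4 * E.length < 2 * ∑ e ∈ E.toFinset, cls n t T (e, τ) m := by
      intro τ hτ m hm
      interval_cases τ <;> interval_cases m <;> omega
    intro τ hτ m hm
    obtain ⟨e, he, h1, h2⟩ := (hB τ hτ m hm).2 (key τ hτ m hm)
    exact ⟨e, List.mem_toFinset.1 he, h1, fun e' he' => h2 e' (List.mem_toFinset.2 he')⟩
  -- (D) the three chains agree
  have hD : ∀ τ < 4, ∃ e ∈ E, ∀ m < 3, t < 2 * cls n t T (e, τ) m ∧
      ∀ e' ∈ E, e' ≠ e → cls n t T (e', τ) m ≤ 2 := by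
    intro τ hτ
    obtain ⟨eV, hV, v1, v2⟩ := hC τ hτ 0 (by norm_num)
    obtain ⟨eM, hM, m1, m2⟩ := hC τ hτ 1 (by norm_num)
    obtain ⟨eU, hU, u1, u2⟩ := hC τ hτ 2 (by norm_num)
    have v3 : 3 ≤ cls n t T (eV, τ) 0 := by omega
    have m3 : 3 ≤ cls n t T (eM, τ) 1 := by omega
    have u3 : 3 ≤ cls n t T (eU, τ) 2 := by omega
    have a1 := cM eM hM eV hV τ hτ 0 (by norm_num) m3 v3
    have a2 := cV eV hV eM hM τ hτ τ hτ 1 (by norm_num) v3 m3 rfl
    have h1 : col (eM, τ) = col (eV, τ) := le_antisymm a2.1 a1.1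
    have e1 : eM = eV := arc_eq eM eV τ h1 (le_antisymm a1.2 (a2.2 h1 rfl))
    have a3 := cM eM hM eU hU τ hτ 2 (by norm_num) m3 u3
    have a4 := cU eU hU eM hM τ hτ τ hτ 1 (by norm_num) u3 m3 rfl
    have h2 : row (eM, τ) = row (eU, τ) := le_antisymm a3.2 a4.1
    have e2 : eM = eU := arc_eq eM eU τ (le_antisymm (a4.2 h2 rfl) a3.1) h2
    subst e1
    subst e2
    refine ⟨eM, hM, fun m hm => ?_⟩
    interval_cases m
    · exact ⟨v1, v2⟩
    · exact ⟨m1, m2⟩
    · exact ⟨u1, u2⟩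
  obtain ⟨e0, he0, d0⟩ := hD 0 (by norm_num)
  obtain ⟨e1, he1, d1⟩ := hD 1 (by norm_num)
  obtain ⟨e2, he2, d2⟩ := hD 2 (by norm_num)
  obtain ⟨e3, he3, d3⟩ := hD 3 (by norm_num)
  have k0 : ∀ m < 3, 3 ≤ cls n t T (e0, 0) m := fun m hm => by have := (d0 m hm).1; omega
  have k1 : ∀ m < 3, 3 ≤ cls n t T (e1, 1) m := fun m hm => by have := (d1 m hm).1; omega
  have k2 : ∀ m < 3, 3 ≤ cls n t T (e2, 2) m := fun m hm => by have := (d2 m hm).1; omega
  have k3 : ∀ m < 3, 3 ≤ cls n t T (e3, 3) m := fun m hm => by have := (d3 m hm).1; omega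
  -- (E) the rectangle
  have f1 : e3.1 = e0.2 := by
    have a1 := (cV e3 he3 e0 he0 3 (by norm_num) 0 (by norm_num) 0 (by norm_num)
      (k3 0 (by norm_num)) (k0 0 (by norm_num)) rfl).1
    have a2 := (cV e0 he0 e3 he3 0 (by norm_num) 3 (by norm_num) 0 (by norm_num)
      (k0 0 (by norm_num)) (k3 0 (by norm_num)) rfl).1
    simp [col] at a1 a2
    omega
  have f2 : e2.2 = e1.1 := by
    have a1 := (cV e2 he2 e1 he1 2 (by norm_num) 1 (by norm_num) 0 (by norm_num)
      (k2 0 (by norm_num)) (k1 0 (by norm_num)) rfl).1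
    have a2 := (cV e1 he1 e2 he2 1 (by norm_num) 2 (by norm_num) 0 (by norm_num)
      (k1 0 (by norm_num)) (k2 0 (by norm_num)) rfl).1
    simp [col] at a1 a2
    omega
  have f3 : e3.2 = e2.1 := by
    have a1 := (cU e3 he3 e2 he2 3 (by norm_num) 2 (by norm_num) 0 (by norm_num)
      (k3 2 (by norm_num)) (k2 0 (by norm_num)) rfl).1
    have a2 := (cU e2 he2 e3 he3 2 (by norm_num) 3 (by norm_num) 0 (by norm_num)
      (k2 2 (by norm_num)) (k3 0 (by norm_num)) rfl).1
    simp [row] at a1 a2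
    omega
  have f4 : e1.2 = e0.1 := by
    have a1 := (cU e1 he1 e0 he0 1 (by norm_num) 0 (by norm_num) 0 (by norm_num)
      (k1 2 (by norm_num)) (k0 0 (by norm_num)) rfl).1
    have a2 := (cU e0 he0 e1 he1 0 (by norm_num) 1 (by norm_num) 0 (by norm_num)
      (k0 2 (by norm_num)) (k1 0 (by norm_num)) rfl).1
    simp [row] at a1 a2
    omega
  have g3 : ((e3.1, e3.2) : ℕ × ℕ) = e3 := rfl
  have g2 : ((e3.2, e2.2) : ℕ × ℕ) = e2 := Prod.ext f3 rfl
  have g1 : ((e2.2, e1.2) : ℕ × ℕ) = e1 := Prod.ext f2 rfl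
  have g0 : ((e1.2, e3.1) : ℕ × ℕ) = e0 := Prod.ext f4 f1
  have hrect : rect (e3.1, e3.2, e2.2, e1.2) = [(e3, 3), (e2, 2), (e1, 1), (e0, 0)] := by
    unfold rect
    rw [g3, g2, g1, g0]
  refine ⟨(e3.1, e3.2, e2.2, e1.2), ⟨?_, ?_, ?_, ?_⟩, ?_⟩
  · simpa only [g3] using he3
  · simpa only [g2] using he2
  · simpa only [g1] using he1
  · simpa only [g0] using he0
  · intro b hb m hm
    rw [mem_blobs] at hb
    obtain ⟨hb1, hb2⟩ := hb
    obtain ⟨e, τ⟩ := b
    simp only at hb1 hb2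
    rw [hrect]
    constructor
    · intro h
      have h3 : 3 ≤ cls n t T (e, τ) m := by omega
      interval_cases τ
      · have : e = e0 := by
          by_contra hne
          have := (d0 m hm).2 e hb1 hne
          omega
        simp [this]
      · have : e = e1 := by
          by_contra hne
          have := (d1 m hm).2 e hb1 hne
          omega
        simp [this]
      · have : e = e2 := by
          by_contra hne
          have := (d2 m hm).2 e hb1 hne
          omega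
        simp [this]
      · have : e = e3 := by
          by_contra hne
          have := (d3 m hm).2 e hb1 hne
          omega
        simp [this]
    · intro h
      simp only [List.mem_cons, List.not_mem_nil, or_false] at h
      rcases h with h | h | h | h
      · rw [h]; exact (d3 m hm).1
      · rw [h]; exact (d2 m hm).1
      · rw [h]; exact (d1 m hm).1
      · rw [h]; exact (d0 m hm).1

end Pool.Agent.W982.CP
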