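import Pool.Agent.W996.EC.Stm

/-! EC project: pointwise convergence implies coefficientwise convergence; joint continuity of
translations and dilations. -/

set_option autoImplicit false

namespace Pool.Agent.W578.ECPt

open MvPolynomial Filter Topology Pool.Agent.W996.EC

/-- S_pt -/
theorem t_pt : S_pt := by
  intro n d p q hd hx
  refine ⟨⟨d, hd⟩, fun m => ?_⟩
  let V := MvPolynomial.restrictTotalDegree (Fin n) ℂ (max d q.totalDegree)
  have hp : ∀ j, p j ∈ V := fun j =>
    (mem_restrictTotalDegree _ _ _).2 ((hd j).trans (le_max_left _ _))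
  have hq : q ∈ V := (mem_restrictTotalDegree _ _ _).2 (le_max_right _ _)
  let ev : (Fin n → ℂ) → Module.Dual ℂ V := fun x =>
    (MvPolynomial.aeval x : MvPolynomial (Fin n) ℂ →ₐ[ℂ] ℂ).toLinearMap ∘ₗ V.subtype
  have hev : ∀ x (v : V), ev x v = eval x (v : MvPolynomial (Fin n) ℂ) := by
    intro x v
    simp only [ev, LinearMap.comp_apply, Submodule.subtype_apply, AlgHom.toLinearMap_apply]
    rw [← MvPolynomial.coe_aeval_eq_eval]
    rfl
  have hspan : Submodule.span ℂ (Set.range ev) = ⊤ := by
    have h1 : (Submodule.span ℂ (Set.range ev)).dualCoannihilator = ⊥ := by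
      rw [eq_bot_iff]
      intro v hv
      rw [Submodule.mem_dualCoannihilator] at hv
      rw [Submodule.mem_bot]
      apply Subtype.ext
      apply MvPolynomial.funext
      intro x
      have h2 := hv (ev x) (Submodule.subset_span ⟨x, rfl⟩)
      rw [hev] at h2
      rw [h2]
      simp
    have h3 := Subspace.dualCoannihilator_dualAnnihilator_eq
      (W := Submodule.span ℂ (Set.range ev))
    rw [h1] at h3
    rw [← h3]
    exact Submodule.dualAnnihilator_bot
  have hall : ∀ φ : Module.Dual ℂ V,
      Tendsto (fun j => φ ⟨p j, hp j⟩) atTop (𝓝 (φ ⟨q, hq⟩)) := by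
    intro φ
    have hφ : φ ∈ Submodule.span ℂ (Set.range ev) := by rw [hspan]; exact Submodule.mem_top
    induction hφ using Submodule.span_induction with
    | mem φ h =>
      obtain ⟨x, rfl⟩ := h
      simp only [hev]
      exact hx x
    | zero => simp
    | add a b _ _ ha hb =>
      simp only [LinearMap.add_apply]
      exact ha.add hb
    | smul c a _ ha =>
      simp only [LinearMap.smul_apply, smul_eq_mul]
      exact ha.const_mul c
  have h := hall ((MvPolynomial.lcoeff ℂ m) ∘ₗ V.subtype)
  simpa using h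

/-- the monomials of degree at most `d` -/
theorem support_sub (n d : ℕ) (p : MvPolynomial (Fin n) ℂ) (hd : p.totalDegree ≤ d) :
    p.support ⊆ Finset.Iic (Finsupp.equivFunOnFinite.symm (fun _ : Fin n => d)) := by
  intro m hm
  rw [Finset.mem_Iic]
  intro i
  have h1 := le_totalDegree hm
  rw [Finsupp.sum_fintype _ _ (fun _ => rfl)] at h1
  have h2 : m i ≤ ∑ i, m i := Finset.single_le_sum (fun _ _ => Nat.zero_le _) (Finset.mem_univ i)
  simp only [Finsupp.equivFunOnFinite_symm_apply_apply]
  omega

theorem eval_sum (n : ℕ) (S : Finset (Fin n →₀ ℕ)) (p : MvPolynomial (Fin n) ℂ)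
    (h : p.support ⊆ S) (y : Fin n → ℂ) :
    eval y p = ∑ m ∈ S, coeff m p * ∏ i, y i ^ m i := by
  rw [eval_eq']
  refine Finset.sum_subset h ?_
  intro m _ hm
  rw [notMem_support_iff.1 hm, zero_mul]

/-- joint continuity of the evaluation -/
theorem conv_eval (n : ℕ) (p : ℕ → MvPolynomial (Fin n) ℂ) (q : MvPolynomial (Fin n) ℂ)
    (h : Conv p q) (y : ℕ → Fin n → ℂ) (y0 : Fin n → ℂ) (hy : Tendsto y atTop (𝓝 y0)) :
    Tendsto (fun j => eval (y j) (p j)) atTop (𝓝 (eval y0 q)) := by
  obtain ⟨⟨d, hd⟩, hc⟩ := h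
  set S := Finset.Iic (Finsupp.equivFunOnFinite.symm (fun _ : Fin n => d)) ∪ q.support with hS
  have h1 : ∀ j, (p j).support ⊆ S := fun j =>
    (support_sub n d (p j) (hd j)).trans Finset.subset_union_left
  have h2 : q.support ⊆ S := Finset.subset_union_right
  rw [eval_sum n S q h2]
  simp only [fun j => eval_sum n S (p j) (h1 j) (y j)]
  refine tendsto_finsetSum _ fun m _ => (hc m).mul ?_
  refine tendsto_finsetProd _ fun i _ => ?_
  exact ((tendsto_pi_nhds.1 hy) i).pow _

/-- S_join -/
theorem t_join : S_join := by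
  intro n p q hpq lam l0 k k0 c c0 hlam hk hc
  obtain ⟨d, hd⟩ := hpq.1
  refine t_pt n d _ _ ?_ ?_
  · intro j
    refine (totalDegree_mul _ _).trans ?_
    rw [totalDegree_C, zero_add]
    exact (totalDegree_tr_le _ _ _).trans (hd j)
  · intro x
    simp only [map_mul, eval_C, eval_tr]
    refine hc.mul ?_
    refine conv_eval n p q hpq _ _ ?_
    refine tendsto_pi_nhds.2 fun i => ?_
    refine Tendsto.add ?_ ?_
    · refine Tendsto.mul_const _ ?_
      exact (Complex.continuous_ofReal.tendsto _).comp hlam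
    · refine Tendsto.const_mul _ ?_
      exact (Complex.continuous_ofReal.tendsto _).comp ((tendsto_pi_nhds.1 hk) i)

end Pool.Agent.W578.ECPt
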