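import Mathlib
import Pool.Agent.W921.VP.DefsC

/-! VP-ORD: the order of the points of the free extension, and countable isomorphism classes. -/

set_option autoImplicit false

namespace Pool.Agent.W578.VPORD

open FirstOrder Set
open Pool.Agent.W921.VP

/-- the point is planted -/
def isY {J : Type} (a : El J) : Prop := ∃ i, a = El.y i

/-- the order -/
def lt0 {J : Type} (a b : El J) : Prop :=
  (isY a ∧ ¬ isY b) ∨ ((isY a ↔ isY b) ∧ WellOrderingRel a b)

theorem ord : Pool.Agent.W921.VP.S_ORD := by
  intro J
  refine ⟨lt0, ?_, ?_⟩
  · intro a b hab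
    have h1 : WellOrderingRel a b ↔ ¬ WellOrderingRel b a := by
      constructor
      · intro h h'
        exact asymm_of WellOrderingRel h h'
      · intro h
        rcases trichotomous_of WellOrderingRel a b with h2 | h2 | h2
        · exact h2
        · exact absurd h2 hab
        · exact absurd h2 h
    unfold lt0
    tauto
  · intro i u v m m' z
    refine Or.inl ⟨⟨i, rfl⟩, ?_⟩
    rintro ⟨j, hj⟩
    cases hj

theorem ctb : Pool.Agent.W921.VP.S_CTB := by
  intro L U hU F k y hF x
  rw [← Set.countable_coe_iff]
  have hch : ∀ x' : {x' | Isom (F x') (F x)}, ∃ e : U ≃ U,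
      ∀ (n : ℕ) (R : L.Relations n) (s : Fin n → U),
        (F x'.1).RelMap R s ↔ (F x).RelMap R (fun i => e (s i)) := fun x' => x'.2
  choose e he using hch
  have hinj : Function.Injective (fun x' : {x' | Isom (F x') (F x)} => fun i : Fin k =>
      e x' (y i)) := by
    intro a b hab
    have hab' : ∀ i, e a (y i) = e b (y i) := fun i => congrFun hab i
    apply Subtype.ext
    refine hF a.1 b.1 ((e a).trans (e b).symm) ?_ ?_
    · intro n R s
      rw [he a n R s, he b n R]
      have e1 : (fun i => e b (((e a).trans (e b).symm) (s i))) = fun i => e a (s i) := by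
        funext i
        simp
      rw [e1]
    · intro i
      rw [Equiv.trans_apply, hab' i, Equiv.symm_apply_apply]
  exact hinj.countable

end Pool.Agent.W578.VPORD
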